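import Mathlib

set_option autoImplicit false

namespace Pool.Agent.Results.MP_b1aa48_co.Counter

/-- Join- and meet-semidistributive. -/
def IsSD (L : Type) [Lattice L] : Prop :=
  (∀ x y z : L, x ⊔ y = x ⊔ z → x ⊔ (y ⊓ z) = x ⊔ y) ∧
  (∀ x y z : L, x ⊓ y = x ⊓ z → x ⊓ (y ⊔ z) = x ⊓ y)

/-- `A` is the canonical join representation of `w`: a join representation of `w`, irredundant,
refining every join representation of `w`. -/
def IsCJR {L : Type} [Lattice L] (A : Set L) (w : L) : Prop :=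
  IsLUB A w ∧ (∀ B : Set L, B ⊂ A → ¬ IsLUB B w) ∧
    ∀ B : Set L, IsLUB B w → ∀ a ∈ A, ∃ b ∈ B, a ≤ b

/-- Faces of the canonical join complex. -/
def Face {L : Type} [Lattice L] (A : Set L) : Prop := ∃ w : L, IsCJR A w

section General
variable {L : Type} [Lattice L]

/-- The arrow relation. -/
def R (x j : L) : Prop := ∃ l, l < j ∧ j ≤ x ⊔ l

lemma low [Finite L] {j : L} (hj : SupIrred j) : ∃ l, l < j ∧ ∀ x, x < j → x ≤ l := by
  have hne : ({x | x < j} : Set L).Nonempty := by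
    have := hj.1
    rw [not_isMin_iff] at this
    exact this
  obtain ⟨l, hl⟩ := (Set.toFinite {x | x < j}).exists_maximal hne
  refine ⟨l, hl.1, fun x hx => ?_⟩
  have h1 : x ⊔ l < j := by
    refine lt_of_le_of_ne (sup_le hx.le hl.1.le) fun h => ?_
    rcases hj.2 h with h | h
    · exact hx.ne h
    · exact hl.1.ne h
  exact le_sup_left.trans (hl.2 h1 le_sup_right)

lemma R_mono {x y j : L} (h : x ≤ y) (hr : R x j) : R y j := by
  obtain ⟨l, hl, hj⟩ := hr
  exact ⟨l, hl, hj.trans (sup_le_sup_right h l)⟩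

lemma R_of_le [Finite L] {x j : L} (hj : SupIrred j) (h : j ≤ x) : R x j := by
  obtain ⟨l, hl, -⟩ := low hj
  exact ⟨l, hl, h.trans le_sup_left⟩

lemma not_R_of_lt [Finite L] {x j : L} (hj : SupIrred j) (h : x < j) : ¬ R x j := by
  obtain ⟨l, hl, hl'⟩ := low hj
  rintro ⟨m, hm, hjm⟩
  exact hl.not_ge (hjm.trans (sup_le (hl' _ h) (hl' _ hm)))

lemma R_sup [Finite L] (hL : IsSD L) {x y j : L} (hj : SupIrred j) (h : R (x ⊔ y) j) :
    R x j ∨ R y j := by
  obtain ⟨l, hl, hl'⟩ := low hj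
  by_contra hc
  push Not at hc
  have key : ∀ u, ¬ R u j → j ⊓ (u ⊔ l) = l := by
    intro u hu
    refine le_antisymm (hl' _ (lt_of_le_of_ne inf_le_left fun h => hu ⟨l, hl, ?_⟩))
      (le_inf hl.le le_sup_right)
    exact inf_eq_left.1 h
  have h1 := hL.2 j (x ⊔ l) (y ⊔ l) ((key x hc.1).trans (key y hc.2).symm)
  rw [key x hc.1] at h1
  obtain ⟨m, hm, hjm⟩ := h
  have h2 : j ≤ x ⊔ l ⊔ (y ⊔ l) := by
    refine hjm.trans (sup_le (sup_le ?_ ?_) ?_)
    · exact le_sup_left.trans le_sup_left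
    · exact le_sup_left.trans le_sup_right
    · exact (hl' _ hm).trans (le_sup_right.trans le_sup_left)
  rw [inf_eq_left.2 h2] at h1
  exact hl.ne h1.symm

lemma refine_aux [Finite L] (hL : IsSD L) {i j : L} (hj : SupIrred j) (h : ¬ R i j)
    (B : Set L) (hB : IsLUB B (i ⊔ j)) : ∃ b ∈ B, j ≤ b := by
  obtain ⟨l, hl, hl'⟩ := low hj
  have h0 : i ⊔ l < i ⊔ j := by
    refine lt_of_le_of_ne (sup_le_sup_left hl.le i) fun h' => h ⟨l, hl, ?_⟩
    rw [h']; exact le_sup_right
  obtain ⟨c, hc⟩ := (Set.toFinite {c | i ⊔ l ≤ c ∧ c < i ⊔ j}).exists_maximal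
    ⟨i ⊔ l, le_rfl, h0⟩
  obtain ⟨⟨hc1, hc2⟩, hc3⟩ := hc
  have : ∃ b ∈ B, ¬ b ≤ c := by
    by_contra hh
    push Not at hh
    exact hc2.not_ge (hB.2 hh)
  obtain ⟨b, hb, hbc⟩ := this
  refine ⟨b, hb, ?_⟩
  have h1 : c ⊔ b = i ⊔ j := by
    by_contra hne
    have h2 : c ⊔ b < i ⊔ j := lt_of_le_of_ne (sup_le hc2.le (hB.1 hb)) hne
    exact hbc (le_sup_right.trans (hc3 ⟨hc1.trans le_sup_left, h2⟩ le_sup_left))
  have h2 : c ⊔ j = i ⊔ j :=
    le_antisymm (sup_le hc2.le le_sup_right) (sup_le_sup_right (le_sup_left.trans hc1) j)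
  have h3 := hL.1 c j b (h2.trans h1.symm)
  by_contra hjb
  have h4 : j ⊓ b ≤ c :=
    (hl' _ (lt_of_le_of_ne inf_le_left fun h => hjb (inf_eq_left.1 h))).trans
      (le_sup_right.trans hc1)
  rw [sup_eq_left.2 h4, h2] at h3
  exact hc2.ne h3

lemma face_not_R {i j : L} (hij : i ≠ j) (h : Face ({i, j} : Set L)) : ¬ R i j := by
  obtain ⟨w, h1, h2, h3⟩ := h
  rintro ⟨l, hl, hjl⟩
  have hw : w = i ⊔ j := h1.unique isLUB_pair
  have e : i ⊔ l = w := by
    rw [hw]
    exact le_antisymm (sup_le_sup_left hl.le i) (sup_le le_sup_left hjl)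
  obtain ⟨b, hb, hjb⟩ := h3 {i, l} (e ▸ isLUB_pair) j (by simp)
  rcases hb with rfl | rfl
  · refine h2 {b} ⟨by simp, fun hh => ?_⟩ ?_
    · have : j ∈ ({b} : Set L) := hh (by simp)
      exact hij (Set.mem_singleton_iff.1 this).symm
    · rw [hw, sup_eq_left.2 hjb]; exact isLUB_singleton
  · exact hl.not_ge hjb

lemma face_iff [Finite L] (hL : IsSD L) {i j : L} (hi : SupIrred i) (hj : SupIrred j)
    (hij : i ≠ j) : Face ({i, j} : Set L) ↔ ¬ R i j ∧ ¬ R j i := by
  constructor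
  · intro h
    exact ⟨face_not_R hij h, face_not_R hij.symm (Set.pair_comm i j ▸ h)⟩
  · rintro ⟨h1, h2⟩
    refine ⟨i ⊔ j, isLUB_pair, fun B hB hl => ?_, fun B hB a ha => ?_⟩
    · by_cases hiB : i ∈ B
      · have hjB : j ∉ B := fun hjB => hB.2 (by
          intro x hx
          rcases hx with rfl | rfl
          · exact hiB
          · exact hjB)
        have : i ⊔ j ≤ i := hl.2 (by
          intro x hx
          rcases hB.1 hx with rfl | rfl
          · exact le_rfl
          · exact absurd hx hjB)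
        exact h1 (R_of_le hj (le_sup_right.trans this))
      · have : i ⊔ j ≤ j := hl.2 (by
          intro x hx
          rcases hB.1 hx with rfl | rfl
          · exact absurd hx hiB
          · exact le_rfl)
        exact h2 (R_of_le hi (le_sup_left.trans this))
    · rcases ha with rfl | rfl
      · exact refine_aux hL hi h2 B (sup_comm a j ▸ hB)
      · exact refine_aux hL hj h1 B hB

lemma factor [Finite L] (hL : IsSD L) {i j : L} (hj : SupIrred j) (h : R i j) :
    ∃ k, SupIrred k ∧ k ≤ i ∧ R k j ∧ ∀ h, R h k → R h j := by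
  obtain ⟨k, ⟨hk1, hk2⟩, hk3⟩ := (Set.toFinite {k | k ≤ i ∧ R k j}).exists_minimal ⟨i, le_rfl, h⟩
  have hmin : ∀ u, u < k → ¬ R u j := fun u hu hr =>
    hu.not_ge (hk3 ⟨hu.le.trans hk1, hr⟩ hu.le)
  refine ⟨k, ⟨fun hm => ?_, fun a b hab => ?_⟩, hk1, hk2, fun h hh => ?_⟩
  · obtain ⟨l, hl, hjl⟩ := hk2
    have : k ≤ l := (hm (inf_le_left : k ⊓ l ≤ k)).trans inf_le_right
    rw [sup_eq_right.2 this] at hjl
    exact hl.not_ge hjl
  · by_contra hc
    push Not at hc
    rcases R_sup hL hj (hab ▸ hk2) with h | h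
    · exact hmin a (lt_of_le_of_ne (hab ▸ le_sup_left) hc.1) h
    · exact hmin b (lt_of_le_of_ne (hab ▸ le_sup_right) hc.2) h
  · obtain ⟨k', hk', hkk⟩ := hh
    rcases R_sup hL hj (R_mono hkk hk2) with h | h
    · exact h
    · exact absurd h (hmin _ hk')

lemma kappa [Finite L] (hL : IsSD L) {j : L} (hj : SupIrred j) :
    ∃ c, ¬ R c j ∧ ∀ u, ¬ R u j → u ≤ c := by
  obtain ⟨l, hl, -⟩ := low hj
  obtain ⟨c, hc1, hc2⟩ := (Set.toFinite {c | ¬ R c j}).exists_maximal ⟨l, not_R_of_lt hj hl⟩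
  refine ⟨c, hc1, fun u hu => ?_⟩
  have : ¬ R (u ⊔ c) j := fun h => (R_sup hL hj h).elim hu hc1
  exact le_sup_left.trans (hc2 this le_sup_right)

lemma q_anti [Finite L] (hL : IsSD L) {x y : L} (hx : SupIrred x) (hy : SupIrred y)
    (hxy : x ≠ y) (hq : ∀ h, R h x → R h y) : ¬ R y x := by
  intro hr
  obtain ⟨c, hc1, hc2⟩ := kappa hL hy
  obtain ⟨d, hd1, hd2⟩ := kappa hL hx
  have hcd : c ≤ d := hd2 c fun h => hc1 (hq c h)
  have up : ∀ {j c : L}, SupIrred j → (∀ u, ¬ R u j → u ≤ c) → ∀ u, c < u → j ≤ u := by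
    intro j c hj hc u hu
    have : R u j := by
      by_contra h
      exact hu.not_ge (hc u h)
    obtain ⟨l, hl, hjl⟩ := this
    exact hjl.trans (sup_le le_rfl ((hc l (not_R_of_lt hj hl)).trans hu.le))
  rcases hcd.lt_or_eq with hlt | heq
  · exact hd1 (R_mono (up hy hc2 d hlt) hr)
  · subst heq
    have hxc : ¬ x ≤ c := fun h => hd1 (R_of_le hx h)
    have hyc : ¬ y ≤ c := fun h => hc1 (R_of_le hy h)
    have h1 : y ≤ c ⊔ x := up hy hc2 _ (left_lt_sup.2 hxc)
    have h2 : x ≤ c ⊔ y := up hx hd2 _ (left_lt_sup.2 hyc)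
    have h3 : c ⊔ x = c ⊔ y := le_antisymm (sup_le le_sup_left h2) (sup_le le_sup_left h1)
    have h4 := hL.1 c x y h3
    by_cases hle : x ≤ y
    · have : x ≤ c := hc2 x (not_R_of_lt hy (lt_of_le_of_ne hle hxy))
      exact hxc this
    · have h5 : x ⊓ y < x := lt_of_le_of_ne inf_le_left fun h => hle (inf_eq_left.1 h)
      rw [sup_eq_left.2 (hd2 _ (not_R_of_lt hx h5))] at h4
      exact hxc (h4 ▸ le_sup_right)

/-- If the arrow graph on the join-irreducibles has no triangle, it is 3-colourable. -/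
lemma colour [Finite L] (hL : IsSD L)
    (tf : ∀ i j k : L, SupIrred i → SupIrred j → SupIrred k → i ≠ j → j ≠ k → i ≠ k →
      R i j → R j k → R i k → False)
    :
    ∃ c : L → Fin 3, ∀ i j, SupIrred i → SupIrred j → i ≠ j → R i j → c i ≠ c j := by
  classical
  let T : L → Prop := fun y => ∃ x, SupIrred x ∧ y < x
  let S : L → Prop := fun x => ∃ y, SupIrred y ∧ y ≠ x ∧ ∀ h, R h x → R h y
  have hT : ∀ i j, SupIrred i → SupIrred j → i ≠ j → R i j → T i → False := by
    rintro i j hi hj hij hr ⟨x, hx, hix⟩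
    refine tf x i j hx hi hj hix.ne' hij ?_ (R_of_le hi hix.le) hr (R_mono hix.le hr)
    rintro rfl
    exact not_R_of_lt hx hix hr
  have hS : ∀ i j, SupIrred i → SupIrred j → i ≠ j → R i j → S j → False := by
    rintro i j hi hj hij hr ⟨y, hy, hyj, hq⟩
    refine tf i j y hi hj hy hij hyj.symm ?_ hr (hq j (R_of_le hj le_rfl)) (hq i hr)
    rintro rfl
    exact q_anti hL hj hi hij.symm hq hr
  have hE : ∀ i j, SupIrred i → SupIrred j → i ≠ j → R i j → T j ∨ S i := by
    intro i j hi hj hij hr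
    obtain ⟨k, hk, hki, hkj, hq⟩ := factor hL hj hr
    by_cases h1 : k = j
    · subst h1
      exact Or.inl ⟨i, hi, lt_of_le_of_ne hki hij.symm⟩
    by_cases h2 : k = i
    · subst h2
      exact Or.inr ⟨j, hj, hij.symm, hq⟩
    exact (tf i k j hi hk hj (Ne.symm h2) h1 hij (R_of_le hk hki) hkj hr).elim
  refine ⟨fun x => if T x then 0 else if S x then 1 else 2, fun i j hi hj hij hr => ?_⟩
  have a1 := hT i j hi hj hij hr
  have a2 := hS i j hi hj hij hr
  have a3 := hE i j hi hj hij hr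
  by_cases t1 : T i
  · exact (a1 t1).elim
  by_cases s2 : S j
  · exact (a2 s2).elim
  by_cases t2 : T j
  · by_cases s1 : S i <;> simp [t1, t2, s1]
  · have s1 : S i := a3.resolve_left t2
    simp [t1, t2, s1, s2]

end General

section Pairs
variable {V : Type} (r : V → V → Prop)

/-- The lattice of maximal orthogonal pairs of `r`. -/
abbrev P := Concept V V (fun a b => ¬ r a b)

variable {r}

lemma mem_ext (c : P r) (x : V) : x ∈ c.extent ↔ ∀ y ∈ c.intent, ¬ r x y := by
  rw [← c.lowerPolar_intent]; rfl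

lemma mem_int (c : P r) (y : V) : y ∈ c.intent ↔ ∀ x ∈ c.extent, ¬ r x y := by
  rw [← c.upperPolar_extent]; rfl

/-- Hypotheses: reflexive, ranked, factorizable. -/
structure Good (r : V → V → Prop) (ρ : V → ℕ) : Prop where
  refl : ∀ x, r x x
  rank : ∀ x y, r x y → x ≠ y → ρ x < ρ y
  fact : ∀ x y, r x y → ∃ z, (∀ w, r z w → r x w) ∧ (∀ w, r w z → r w y)

variable {ρ : V → ℕ}

lemma not_both (h : Good r ρ) (c : P r) (x : V) (h1 : x ∈ c.extent) (h2 : x ∈ c.intent) : False :=
  (mem_ext c x).1 h1 x h2 (h.refl x)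

lemma sd [Finite V] (h : Good r ρ) : IsSD (P r) := by
  constructor
  · intro a b c habc
    refine le_antisymm (sup_le_sup_left inf_le_left a) ?_
    rw [← Concept.intent_subset_intent_iff, Concept.intent_sup, Concept.intent_sup]
    have e : a.intent ∩ b.intent = a.intent ∩ c.intent := by
      rw [← Concept.intent_sup, ← Concept.intent_sup, habc]
    have key : ∀ n, ∀ y, ρ y = n → y ∈ a.intent ∩ (b ⊓ c).intent → y ∈ a.intent ∩ b.intent := by
      intro n
      induction n using Nat.strong_induction_on with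
      | _ n ih =>
        intro y hy hmem
        by_contra hc
        have step : ∀ d : P r, a.intent ∩ b.intent = a.intent ∩ d.intent → y ∈ d.extent := by
          intro d hd
          have hyd : y ∉ d.intent := fun hh => hc (hd ▸ ⟨hmem.1, hh⟩)
          rw [mem_int] at hyd
          push Not at hyd
          obtain ⟨x, hx, hxy⟩ := hyd
          obtain ⟨z, hz1, hz2⟩ := h.fact x y hxy
          have hzd : z ∈ d.extent :=
            (mem_ext d z).2 fun w hw hzw => (mem_ext d x).1 hx w hw (hz1 w hzw)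
          by_cases hzy : z = y
          · exact hzy ▸ hzd
          have cl : ∀ u : P r, y ∈ u.intent → z ∈ u.intent := fun u hu =>
            (mem_int u z).2 fun w hw hwz => (mem_int u y).1 hu w hw (hz2 w hwz)
          have := ih (ρ z) (hy ▸ h.rank z y (hz2 z (h.refl z)) hzy) z rfl
            ⟨cl _ hmem.1, cl _ hmem.2⟩
          rw [hd] at this
          exact (not_both h d z hzd this.2).elim
        refine not_both h (b ⊓ c) y ?_ hmem.2
        rw [Concept.extent_inf]
        exact ⟨step b rfl, step c e⟩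
    exact fun y hy => key _ y rfl hy
  · intro a b c habc
    refine le_antisymm ?_ (inf_le_inf_left a le_sup_left)
    rw [← Concept.extent_subset_extent_iff, Concept.extent_inf, Concept.extent_inf]
    have e : a.extent ∩ b.extent = a.extent ∩ c.extent := by
      rw [← Concept.extent_inf, ← Concept.extent_inf, habc]
    obtain ⟨N, hN⟩ : ∃ N, ∀ x, ρ x ≤ N := by
      obtain ⟨N, hN⟩ := (Set.finite_range ρ).bddAbove
      exact ⟨N, fun x => hN ⟨x, rfl⟩⟩
    have key : ∀ n, ∀ x, N - ρ x = n → x ∈ a.extent ∩ (b ⊔ c).extent →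
        x ∈ a.extent ∩ b.extent := by
      intro n
      induction n using Nat.strong_induction_on with
      | _ n ih =>
        intro x hx hmem
        by_contra hc
        have step : ∀ d : P r, a.extent ∩ b.extent = a.extent ∩ d.extent → x ∈ d.intent := by
          intro d hd
          have hxd : x ∉ d.extent := fun hh => hc (hd ▸ ⟨hmem.1, hh⟩)
          rw [mem_ext] at hxd
          push Not at hxd
          obtain ⟨y, hy, hxy⟩ := hxd
          obtain ⟨z, hz1, hz2⟩ := h.fact x y hxy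
          have hzd : z ∈ d.intent :=
            (mem_int d z).2 fun w hw hwz => (mem_int d y).1 hy w hw (hz2 w hwz)
          by_cases hzx : x = z
          · exact hzx ▸ hzd
          have cl : ∀ u : P r, x ∈ u.extent → z ∈ u.extent := fun u hu =>
            (mem_ext u z).2 fun w hw hzw => (mem_ext u x).1 hu w hw (hz1 w hzw)
          have h1 := h.rank x z (hz1 z (h.refl z)) hzx
          have h2 := hN z
          have := ih (N - ρ z) (by omega) z rfl ⟨cl _ hmem.1, cl _ hmem.2⟩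
          rw [hd] at this
          exact (not_both h d z this.2 hzd).elim
        refine not_both h (b ⊔ c) x hmem.2 ?_
        rw [Concept.intent_sup]
        exact ⟨step b rfl, step c e⟩
    exact fun x hx => key _ x rfl hx

/-- The join-irreducible attached to `x`. -/
def T (r : V → V → Prop) (x : V) : P r := Concept.ofObjects _ {x}

/-- The element it covers. -/
def U (r : V → V → Prop) (x : V) : P r :=
  Concept.ofObjects _ {y | (∀ w, r y w → r x w) ∧ y ≠ x}

lemma int_T (x y : V) : y ∈ (T r x).intent ↔ ¬ r x y := by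
  change y ∈ upperPolar _ {x} ↔ _
  simp [mem_upperPolar_iff]

lemma int_U (x y : V) : y ∈ (U r x).intent ↔ ∀ u, (∀ w, r u w → r x w) → u ≠ x → ¬ r u y := by
  change y ∈ upperPolar _ _ ↔ _
  simp [mem_upperPolar_iff]

lemma T_le (x : V) (c : P r) : T r x ≤ c ↔ x ∈ c.extent := by
  simp [T]

lemma self_int_U (h : Good r ρ) (x : V) : x ∈ (U r x).intent := by
  rw [int_U]
  intro u hu hne hux
  have h1 := h.rank u x hux hne
  have h2 := h.rank x u (hu u (h.refl u)) hne.symm
  omega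

lemma U_lt (h : Good r ρ) (x : V) : U r x < T r x := by
  refine lt_of_le_of_ne ?_ fun e => ?_
  · rw [U, Concept.ofObjects_le_iff]
    rintro y ⟨hy, -⟩
    rw [mem_ext]
    intro w hw hyw
    exact (int_T x w).1 hw (hy w hyw)
  · exact not_both h (U r x) x ((T_le x _).1 e.ge) (self_int_U h x)

lemma le_U (x : V) (c : P r) (hc : c < T r x) : c ≤ U r x := by
  apply Concept.le_ofObjects_of_extent_subset
  intro y hy
  refine ⟨fun w hyw => ?_, ?_⟩
  · by_contra hxw
    exact (mem_ext _ y).1 (Concept.extent_subset_extent_iff.2 hc.le hy) w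
      ((int_T x w).2 hxw) hyw
  · rintro rfl
    exact hc.not_ge ((T_le y c).2 hy)

lemma T_irr (h : Good r ρ) (x : V) : SupIrred (T r x) := by
  refine ⟨(U_lt h x).not_isMin, fun a b hab => ?_⟩
  by_contra hc
  push Not at hc
  have h1 := le_U x a (lt_of_le_of_ne (hab ▸ le_sup_left) hc.1)
  have h2 := le_U x b (lt_of_le_of_ne (hab ▸ le_sup_right) hc.2)
  exact (U_lt h x).not_ge (hab ▸ sup_le h1 h2)

lemma R_T (h : Good r ρ) (x y : V) : R (T r x) (T r y) ↔ r x y := by
  constructor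
  · rintro ⟨l, hl, hle⟩
    by_contra hxy
    have h1 : T r y ≤ T r x ⊔ U r y := hle.trans (sup_le_sup_left (le_U y l hl) _)
    refine not_both h _ y ((T_le y _).1 h1) ?_
    rw [Concept.intent_sup]
    exact ⟨(int_T x y).2 hxy, self_int_U h y⟩
  · intro hxy
    refine ⟨U r y, U_lt h y, ?_⟩
    rw [T_le, mem_ext, Concept.intent_sup]
    rintro w ⟨hw1, hw2⟩ hyw
    obtain ⟨u, hu1, hu2⟩ := h.fact y w hyw
    by_cases huy : u = y
    · subst huy
      exact (int_T x w).1 hw1 (hu2 x hxy)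
    · exact (int_U y w).1 hw2 u hu1 huy (hu2 u (h.refl u))

lemma T_inj (h : Good r ρ) : Function.Injective (T r) := by
  intro x y e
  by_contra hne
  have h1 : r x y := by
    by_contra hh
    have := (int_T x y).2 hh
    rw [e, int_T] at this
    exact this (h.refl y)
  have h2 : r y x := by
    by_contra hh
    have := (int_T y x).2 hh
    rw [← e, int_T] at this
    exact this (h.refl x)
  have := h.rank x y h1 hne
  have := h.rank y x h2 (Ne.symm hne)
  omega

end Pairs

/-- Tails of the 20 edges of the Groetzsch graph. -/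
def src : Fin 20 → Fin 11 := ![0, 0, 0, 0, 1, 1, 1, 2, 2, 2, 3, 3, 3, 4, 4, 5, 6, 7, 8, 9]
/-- Heads of the 20 edges of the Groetzsch graph. -/
def tgt : Fin 20 → Fin 11 := ![1, 4, 6, 9, 2, 5, 7, 3, 6, 8, 4, 7, 9, 5, 8, 10, 10, 10, 10, 10]

/-- The relation: every oriented edge gets a midpoint. -/
def rb : Fin 11 ⊕ Fin 20 → Fin 11 ⊕ Fin 20 → Bool
  | .inl a, .inl b => a == b || decide (∃ e, src e = a ∧ tgt e = b)
  | .inl a, .inr e => src e == a
  | .inr e, .inl b => tgt e == b
  | .inr e, .inr f => e == f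

/-- The relation as a proposition. -/
def r0 (x y : Fin 11 ⊕ Fin 20) : Prop := rb x y = true

instance : DecidableRel r0 := fun x y => inferInstanceAs (Decidable (rb x y = true))

/-- Rank. -/
def ρ0 : Fin 11 ⊕ Fin 20 → ℕ
  | .inl a => 2 * a.val
  | .inr e => 2 * (src e).val + 1

lemma good : Good r0 ρ0 := ⟨by decide +kernel, by decide +kernel, by decide +kernel⟩

lemma tri : ∀ a b c : Fin 11, a ≠ b → b ≠ c → a ≠ c →
    (r0 (.inl a) (.inl b) ∨ r0 (.inl b) (.inl a)) →
    (r0 (.inl b) (.inl c) ∨ r0 (.inl c) (.inl b)) →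
    (r0 (.inl a) (.inl c) ∨ r0 (.inl c) (.inl a)) → False := by decide +kernel

set_option synthInstance.maxSize 20000 in
lemma nocol0 : ∀ a0 a1 a2 a3 a4 a5 a6 a7 a8 a9 a10 : Fin 3,
    ¬ (a0 ≠ a1 ∧ a0 ≠ a4 ∧ a0 ≠ a6 ∧ a0 ≠ a9 ∧ a1 ≠ a2 ∧ a1 ≠ a5 ∧ a1 ≠ a7 ∧ a2 ≠ a3 ∧ a2 ≠ a6 ∧ a2 ≠ a8 ∧ a3 ≠ a4 ∧ a3 ≠ a7 ∧ a3 ≠ a9 ∧ a4 ≠ a5 ∧ a4 ≠ a8 ∧ a5 ≠ a10 ∧ a6 ≠ a10 ∧ a7 ≠ a10 ∧ a8 ≠ a10 ∧ a9 ≠ a10) := by decide +kernel

lemma nocol (c : Fin 11 → Fin 3)
    (h : ∀ a b, (a ≠ b ∧ r0 (.inl a) (.inl b)) → c a ≠ c b) : False :=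
  nocol0 (c 0) (c 1) (c 2) (c 3) (c 4) (c 5) (c 6) (c 7) (c 8) (c 9) (c 10)
    ⟨h 0 1 (by decide), h 0 4 (by decide), h 0 6 (by decide), h 0 9 (by decide), h 1 2 (by decide), h 1 5 (by decide), h 1 7 (by decide), h 2 3 (by decide), h 2 6 (by decide), h 2 8 (by decide), h 3 4 (by decide), h 3 7 (by decide), h 3 9 (by decide), h 4 5 (by decide), h 4 8 (by decide), h 5 10 (by decide), h 6 10 (by decide), h 7 10 (by decide), h 8 10 (by decide), h 9 10 (by decide)⟩

theorem result : ¬ ∀ (L : Type) [Lattice L] [Finite L], IsSD L →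
    ∀ W : Set L, (∀ w ∈ W, SupIrred w) →
      ∃ (L' : Type) (_ : Lattice L') (_ : Finite L'), IsSD L' ∧
        ∃ e : {j : L' // SupIrred j} ≃ W, ∀ A : Set {j : L' // SupIrred j},
          Face (Subtype.val '' A) ↔ Face (Subtype.val '' (e '' A)) := by
  intro H
  have : Finite (P r0) := Finite.of_injective _ Concept.extent_injective
  obtain ⟨L', _, _, hL', e, he⟩ := H (P r0) (sd good) (Set.range fun a => T r0 (.inl a))
    (by rintro _ ⟨a, rfl⟩; exact T_irr good _)
  have inj : Function.Injective fun a : Fin 11 => T r0 (.inl a) :=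
    (T_inj good).comp Sum.inl_injective
  let f : Fin 11 ≃ {j : L' // SupIrred j} := (Equiv.ofInjective _ inj).trans e.symm
  have hf : ∀ a, (e (f a) : P r0) = T r0 (.inl a) := by
    intro a; simp [f]
  have key : ∀ a b, a ≠ b → ((R (f a).1 (f b).1 ∨ R (f b).1 (f a).1) ↔
      (r0 (.inl a) (.inl b) ∨ r0 (.inl b) (.inl a))) := by
    intro a b hab
    have h1 := he {f a, f b}
    simp only [Set.image_pair, hf] at h1
    rw [face_iff hL' (f a).2 (f b).2 (fun h => hab (f.injective (Subtype.ext h))),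
      face_iff (sd good) (T_irr good _) (T_irr good _) (fun h => hab (inj h)),
      R_T good, R_T good] at h1
    tauto
  obtain ⟨c, hc⟩ := colour hL' (by
    intro i j k hi hj hk hij hjk hik r1 r2 r3
    obtain ⟨a, ha⟩ := f.surjective ⟨i, hi⟩
    obtain ⟨b, hb⟩ := f.surjective ⟨j, hj⟩
    obtain ⟨d, hd⟩ := f.surjective ⟨k, hk⟩
    have hab : a ≠ b := by
      rintro rfl; exact hij (congrArg Subtype.val (ha.symm.trans hb))
    have hbd : b ≠ d := by
      rintro rfl; exact hjk (congrArg Subtype.val (hb.symm.trans hd))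
    have had : a ≠ d := by
      rintro rfl; exact hik (congrArg Subtype.val (ha.symm.trans hd))
    refine tri a b d hab hbd had ((key a b hab).1 (Or.inl ?_)) ((key b d hbd).1 (Or.inl ?_))
      ((key a d had).1 (Or.inl ?_))
    · rw [ha, hb]; exact r1
    · rw [hb, hd]; exact r2
    · rw [ha, hd]; exact r3)
  refine nocol (fun a => c (f a).1) ?_
  rintro a b ⟨hab, hr⟩
  have hne : (f a).1 ≠ (f b).1 := fun h => hab (f.injective (Subtype.ext h))
  rcases (key a b hab).2 (Or.inl hr) with h | h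
  · exact hc _ _ (f a).2 (f b).2 hne h
  · exact (hc _ _ (f b).2 (f a).2 hne.symm h).symm

end Pool.Agent.Results.MP_b1aa48_co.Counter
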